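import Mathlib

namespace Pool.Agent.H.MP_f59e5e_pr
open MeasureTheory Finset

def rr (j : ℕ) : ℕ := 2 ^ (2 ^ (j + 2))
def MM (j : ℕ) : ℕ := Nat.fermatNumber (j + 5)

theorem MM_eq (j : ℕ) : MM j = rr j ^ 8 + 1 := by
  unfold MM rr Nat.fermatNumber
  rw [← pow_mul]; congr 2; ring
theorem rr_succ (j : ℕ) : rr (j + 1) = rr j ^ 2 := by
  unfold rr
  rw [← pow_mul]; congr 1
theorem rr_ge (j : ℕ) : 16 * 2 ^ j ≤ rr j := by
  have : j + 4 ≤ 2 ^ (j + 2) := by
    induction j with
    | zero => norm_num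
    | succ j ih => rw [pow_succ]; omega
  calc 16 * 2 ^ j = 2 ^ (j + 4) := by ring
    _ ≤ _ := Nat.pow_le_pow_right (by norm_num) this
theorem rr_mono {j k : ℕ} (h : j ≤ k) : rr j ≤ rr k :=
  Nat.pow_le_pow_right (by norm_num) (Nat.pow_le_pow_right (by norm_num) (by omega))
theorem rr16 (j : ℕ) : 16 ≤ rr j := le_trans (by nlinarith [Nat.one_le_two_pow (n := j)]) (rr_ge j)

instance (j : ℕ) : NeZero (MM j) := ⟨by rw [MM_eq]; omega⟩

abbrev Om := ∀ j, ZMod (MM j)

instance : BorelSpace Om := Pi.borelSpace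

noncomputable def PP : Measure Om := Measure.addHaarMeasure ⊤

instance : IsProbabilityMeasure PP := ⟨by
  have := Measure.addHaarMeasure_self (K₀ := (⊤ : TopologicalSpace.PositiveCompacts Om))
  simpa [PP] using this⟩
instance : PP.IsAddLeftInvariant := by unfold PP; infer_instance

theorem dense : DenseRange (fun n : ℤ => n • (1 : Om)) := by
  rw [DenseRange, dense_iff_inter_open]
  rintro U hU ⟨y, hy⟩
  obtain ⟨I, u, h1, h2⟩ := isOpen_pi_iff.1 hU y hy
  obtain ⟨k, hk⟩ := Nat.chineseRemainderOfFinset (fun j => (y j).val) MM I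
    (fun i _ => NeZero.ne _)
    (fun a _ b _ h => Nat.pairwise_coprime_fermatNumber (by omega : a + 5 ≠ b + 5))
  refine ⟨(k : ℤ) • (1 : Om), h2 (fun j hj => ?_), ⟨k, rfl⟩⟩
  have : ((k : ℤ) • (1 : Om)) j = y j := by
    have := (ZMod.natCast_eq_natCast_iff _ _ _).2 (hk j hj)
    simpa using this
  rw [this]
  exact (h1 j hj).2

theorem erg : Ergodic (fun x : Om => 1 + x) PP := ergodic_add_left_of_denseRange_zsmul dense PP

theorem meas_cyl (j : ℕ) (S : Set (ZMod (MM j))) : MeasurableSet {ω : Om | ω j ∈ S} :=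
  measurable_pi_apply j (MeasurableSet.of_discrete (s := S))

theorem pt (j : ℕ) (a : ZMod (MM j)) : PP {ω | ω j = a} = (MM j : ENNReal)⁻¹ := by
  have h1 : ∀ b : ZMod (MM j), PP {ω | ω j = b} = PP {ω | ω j = a} := fun b => by
    rw [← measure_preimage_add PP (Pi.single j (a - b)) {ω | ω j = a}]
    congr 1
    ext ω
    simp only [Set.mem_ofPred_eq, Set.mem_preimage, Pi.add_apply, Pi.single_eq_same]
    constructor
    · rintro rfl; ring
    · intro h; linear_combination h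
  have h2 : ∑ b : ZMod (MM j), PP {ω | ω j = b} = 1 := by
    have := sum_measure_preimage_singleton (μ := PP) (univ : Finset (ZMod (MM j)))
      (f := fun ω : Om => ω j) (fun y _ => meas_cyl j {y})
    simpa using! this
  simp only [h1, sum_const, card_univ, ZMod.card, nsmul_eq_mul] at h2
  exact (ENNReal.eq_inv_of_mul_eq_one_left (by rw [mul_comm]; exact h2))

theorem top_le (j D : ℕ) : PP {ω | MM j < (ω j).val + D} ≤ D * (MM j : ENNReal)⁻¹ := by
  have : {ω : Om | MM j < (ω j).val + D} ⊆ ⋃ i ∈ range D, {ω | ω j = ((MM j - 1 - i : ℕ) : ZMod _)} := by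
    intro ω h
    have h1 := ZMod.val_lt (ω j)
    simp only [Set.mem_ofPred_eq] at h
    simp only [Set.mem_iUnion, Set.mem_ofPred_eq]
    refine ⟨MM j - 1 - (ω j).val, mem_range.2 (by omega), ?_⟩
    rw [show MM j - 1 - (MM j - 1 - (ω j).val) = (ω j).val by omega]
    simp
  refine (measure_mono this).trans ((measure_biUnion_finset_le _ _).trans ?_)
  simp [pt]

def Good (ω : Om) : Prop := ∀ j, (ω j).val + (rr j + 3) * rr j ^ 6 ≤ MM j

theorem not_ae : ¬ ∀ᵐ ω ∂PP, ¬ Good ω := by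
  intro h
  have h1 : PP {ω | ¬ Good ω} = 1 := by
    rw [← measure_univ (μ := PP)]
    exact measure_congr (Filter.eventuallyEq_univ.2 h)
  have h2 : {ω | ¬ Good ω} ⊆ ⋃ j, {ω : Om | MM j < (ω j).val + (rr j + 3) * rr j ^ 6} := by
    intro ω h
    simpa [Good] using h
  have h3 : ∀ j, PP {ω : Om | MM j < (ω j).val + (rr j + 3) * rr j ^ 6} ≤ 8⁻¹ * 2⁻¹ ^ j := fun j => by
    refine (top_le j _).trans ?_
    have a1 := rr_ge j
    have a2 := rr16 j
    have a3 : (rr j + 3) * rr j ^ 6 * (8 * 2 ^ j) ≤ MM j := by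
      rw [MM_eq]
      have : (rr j + 3) * (8 * 2 ^ j) ≤ rr j ^ 2 := by nlinarith
      calc _ = rr j ^ 6 * ((rr j + 3) * (8 * 2 ^ j)) := by ring
        _ ≤ rr j ^ 6 * rr j ^ 2 := Nat.mul_le_mul_left _ this
        _ ≤ _ := by rw [← pow_add]; exact Nat.le_succ _
    rw [← ENNReal.inv_pow, ← ENNReal.mul_inv (by simp) (by simp), ← div_eq_mul_inv,
      ENNReal.div_le_iff (by simpa using NeZero.ne (MM j)) (by simp), mul_comm _ (MM j : ENNReal),
      ← div_eq_mul_inv, ENNReal.le_div_iff_mul_le (by simp) (by simp)]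
    exact_mod_cast a3
  have h4 := (measure_mono (μ := PP) h2).trans ((measure_iUnion_le _).trans (ENNReal.tsum_le_tsum h3))
  rw [h1, ENNReal.tsum_mul_left, ENNReal.tsum_geometric_two] at h4
  have : (8⁻¹ * 2 : ENNReal) < 1 := by
    rw [mul_comm, ← div_eq_mul_inv, ENNReal.div_lt_iff (by simp) (by simp)]; norm_num
  exact absurd h4 (not_le.2 this)

end Pool.Agent.H.MP_f59e5e_pr
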