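import Pool.Agent.H.MP_f59e5e_pr.A

namespace Pool.Agent.H.MP_f59e5e_pr
open Finset

def HH (M T v : ℤ) : ℤ := M * max (v + T - M) 0 - T * v

theorem HH_bd {M T v : ℤ} (h1 : 0 ≤ T) (h2 : T ≤ M) (h3 : 0 ≤ v) (h4 : v ≤ M) :
    HH M T v ≤ 0 ∧ -(T * M) ≤ HH M T v := by
  unfold HH
  rcases le_total (v + T - M) 0 with h | h
  · rw [max_eq_right h]; constructor <;> nlinarith
  · rw [max_eq_left h]; constructor <;> nlinarith

theorem one_scale (M T : ℕ) [NeZero M] (h1 : 1 ≤ T) (h2 : T < M) (ψ : ℕ → ZMod M) (x : ℕ → ℕ)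
    (hx : ∀ m, (x (m + 1) = x m ∧ ψ (m + 1) = ψ m + 1) ∨ x (m + 1) = x m + 1) (n : ℕ) :
    M * ((range n).filter (fun m => M ≤ (ψ m).val + T)).card ≤ n * T + T * M * (2 * x n + 1) := by
  have bd : ∀ m, HH M T (ψ m).val ≤ 0 ∧ -((T : ℤ) * M) ≤ HH M T (ψ m).val := fun m =>
    HH_bd (by omega) (by omega) (by omega) (by have := ZMod.val_lt (ψ m); omega)
  have key : (M : ℤ) * ((range n).filter (fun m => M ≤ (ψ m).val + T)).card ≤
      n * T + HH M T (ψ n).val - HH M T (ψ 0).val + 2 * (T * M) * x n := by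
    induction n with
    | zero => simp; positivity
    | succ n ih =>
      have st : (M : ℤ) * (if M ≤ (ψ n).val + T then 1 else 0) ≤ T + HH M T (ψ (n + 1)).val -
          HH M T (ψ n).val + 2 * (T * M) * ((x (n + 1) : ℤ) - x n) := by
        rcases hx n with ⟨a, b⟩ | a
        · have : Fact (1 < M) := ⟨by omega⟩
          have c := ZMod.val_lt (ψ n)
          rw [a, b, ZMod.val_add, ZMod.val_one, sub_self, mul_zero, add_zero]
          generalize (ψ n).val = v at c
          unfold HH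
          rcases (by omega : v + 1 < M ∨ v + 1 = M) with d | d
          · rw [Nat.mod_eq_of_lt d]
            push_cast
            split_ifs with e
            · rw [max_eq_left (by omega), max_eq_left (by omega)]; nlinarith
            · rw [max_eq_right (by omega), max_eq_right (by omega)]; nlinarith
          · rw [d, Nat.mod_self, if_pos (by omega), max_eq_right (by omega), max_eq_left (by omega)]
            subst d
            push_cast
            nlinarith
        · have b1 := bd n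
          have b2 := bd (n + 1)
          have b3 : (M : ℤ) ≤ T * M := by nlinarith
          rw [a]
          push_cast
          split_ifs <;> nlinarith
      rw [range_add_one, filter_insert]
      split_ifs at st ⊢ with e
      · rw [card_insert_of_notMem (by simp)]
        push_cast
        nlinarith
      · push_cast
        nlinarith
  have b1 := bd n
  have b2 := bd 0
  generalize ((range n).filter (fun m => M ≤ (ψ m).val + T)).card = c at key ⊢
  zify
  nlinarith

def col (ω : Om) (j x m : ℕ) : Prop :=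
  MM j ≤ (((x * rr j ^ 6 + m : ℕ) : ZMod (MM j)) + ω j).val + 2 * rr j ^ 6

theorem val_eq (ω : Om) (j c : ℕ) (h : c + (ω j).val < MM j) :
    ((c : ZMod (MM j)) + ω j).val = c + (ω j).val := by
  have : (c : ZMod (MM j)).val = c := ZMod.val_natCast_of_lt (by omega)
  rw [ZMod.val_add_of_lt (by omega), this]

theorem target {ω : Om} (h : Good ω) (k : ℕ) :
    ∃ X ≤ rr k ^ 2, ∀ m < rr k ^ 6, col ω k X m := by
  have h1 := h k
  have h2 := MM_eq k
  have h3 := rr16 k
  have h4 : rr k ^ 8 = rr k ^ 2 * rr k ^ 6 := by ring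
  have h5 : 2 ≤ rr k ^ 6 := le_trans (by norm_num) (Nat.pow_le_pow_left h3 6)
  unfold col
  generalize rr k ^ 6 = n at *
  have h6 := Nat.div_add_mod (MM k - (ω k).val) n
  have h7 := Nat.mod_lt (MM k - (ω k).val) (by omega : n > 0)
  have h8 : n ≤ (rr k + 3) * n := Nat.le_mul_of_pos_left _ (by omega)
  generalize (MM k - (ω k).val) / n = d at *
  generalize (MM k - (ω k).val) % n = e at *
  rcases d with _ | d
  · omega
  have h9 : n * (d + 1) = d * n + n := by ring
  refine ⟨d, ?_, fun m hm => ?_⟩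
  · have : d * n < rr k ^ 2 * n := by omega
    exact (Nat.lt_of_mul_lt_mul_right this).le
  · rw [val_eq _ _ _ (by omega)]; omega

theorem high {ω : Om} (h : Good ω) {j k x m : ℕ} (hj : k < j) (hx : x ≤ rr k ^ 2)
    (hm : m < rr k ^ 6) : ¬ col ω j x m := by
  have h1 := h j
  have h2 : rr k ^ 2 ≤ rr j := rr_succ k ▸ rr_mono hj
  have h3 : rr k ^ 6 ≤ rr j ^ 6 := Nat.pow_le_pow_left (rr_mono hj.le) 6
  have h4 : x * rr j ^ 6 ≤ rr j * rr j ^ 6 := Nat.mul_le_mul_right _ (by omega)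
  have h5 : (rr j + 3) * rr j ^ 6 = rr j * rr j ^ 6 + 3 * rr j ^ 6 := by ring
  unfold col
  rw [val_eq _ _ _ (by omega)]; omega

open Classical in
theorem low (ω : Om) {j k : ℕ} (hj : j < k) (x : ℕ → ℕ)
    (hx : ∀ m, x (m + 1) = x m ∨ x (m + 1) = x m + 1) (hX : x (rr k ^ 6) ≤ rr k ^ 2) :
    32 * 2 ^ j * ((range (rr k ^ 6)).filter (fun m => col ω j (x m) m)).card ≤ rr k ^ 6 := by
  have h0 := rr16 j
  have h1 : 1 ≤ rr j ^ 6 := Nat.one_le_pow _ _ (by omega)
  have h2 : 2 * rr j ^ 6 < MM j := by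
    rw [MM_eq, show rr j ^ 8 = rr j ^ 2 * rr j ^ 6 by ring]
    have : 2 ≤ rr j ^ 2 := by nlinarith
    have := Nat.mul_le_mul_right (rr j ^ 6) this
    omega
  have h3 := one_scale (MM j) (2 * rr j ^ 6) (by omega) h2
    (fun m => ((x m * rr j ^ 6 + m : ℕ) : ZMod (MM j)) + ω j) x (fun m => (hx m).imp_left
      (fun e => ⟨e, by rw [e]; push_cast; ring⟩)) (rr k ^ 6)
  have h4 : (range (rr k ^ 6)).filter (fun m => col ω j (x m) m) = (range (rr k ^ 6)).filter
      (fun m => MM j ≤ (((x m * rr j ^ 6 + m : ℕ) : ZMod (MM j)) + ω j).val + 2 * rr j ^ 6) :=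
    filter_congr (fun _ _ => Iff.rfl)
  rw [← h4] at h3
  generalize ((range (rr k ^ 6)).filter (fun m => col ω j (x m) m)).card = c at *
  have h5 : rr j ^ 2 ≤ rr k := rr_succ j ▸ rr_mono hj
  have h6 : rr j ^ 8 ≤ rr k ^ 4 := by
    rw [show rr j ^ 8 = (rr j ^ 2) ^ 4 by ring]; exact Nat.pow_le_pow_left h5 4
  have h7 : 1 ≤ rr k ^ 2 := Nat.one_le_pow _ _ (by have := rr16 k; omega)
  have h8 : rr j ^ 8 ≤ MM j := by rw [MM_eq]; omega
  have h9 : MM j * (rr j ^ 2 * c) ≤ MM j * (8 * rr k ^ 6) := by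
    calc _ = rr j ^ 2 * (MM j * c) := by ring
      _ ≤ rr j ^ 2 * (rr k ^ 6 * (2 * rr j ^ 6) + 2 * rr j ^ 6 * MM j * (3 * rr k ^ 2)) :=
        Nat.mul_le_mul_left _ (h3.trans (by gcongr; omega))
      _ = 2 * rr k ^ 6 * rr j ^ 8 + 6 * MM j * rr k ^ 2 * rr j ^ 8 := by ring
      _ ≤ 2 * rr k ^ 6 * MM j + 6 * MM j * rr k ^ 2 * rr k ^ 4 := by gcongr
      _ = _ := by ring
  have h10 := Nat.le_of_mul_le_mul_left h9 (by omega)
  have h11 : 256 * 2 ^ j ≤ rr j ^ 2 := by have := rr_ge j; nlinarith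
  have h12 := Nat.mul_le_mul_right c h11
  have : 256 * 2 ^ j * c = 8 * (32 * 2 ^ j * c) := by ring
  omega

open Classical in
theorem count {ω : Om} (h : Good ω) (k : ℕ) (x : ℕ → ℕ)
    (hx : ∀ m, x (m + 1) = x m ∨ x (m + 1) = x m + 1) (hX : ∀ m, x m ≤ rr k ^ 2) :
    16 * (((range (rr k ^ 6)).filter (fun m => ∃ j, j ≠ k ∧ col ω j (x m) m)).card : ℝ) ≤
      (rr k ^ 6 : ℕ) := by
  have h1 : (range (rr k ^ 6)).filter (fun m => ∃ j, j ≠ k ∧ col ω j (x m) m) ⊆
      (range k).biUnion (fun j => (range (rr k ^ 6)).filter (fun m => col ω j (x m) m)) := by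
    intro m hm
    obtain ⟨a, j, b, c⟩ := mem_filter.1 hm
    refine mem_biUnion.2 ⟨j, mem_range.2 ?_, mem_filter.2 ⟨a, c⟩⟩
    by_contra d
    exact high h (by omega) (hX m) (mem_range.1 a) c
  have h2 := (card_le_card h1).trans card_biUnion_le
  have h3 : ∀ j ∈ range k, (((range (rr k ^ 6)).filter (fun m => col ω j (x m) m)).card : ℝ) ≤
      (rr k ^ 6 : ℕ) / 32 * (1 / 2) ^ j := fun j hj => by
    have := low ω (mem_range.1 hj) x hx (hX _)
    rw [one_div, inv_pow, ← div_eq_mul_inv, div_div, le_div_iff₀ (by positivity), mul_comm]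
    exact_mod_cast this
  have h4 := sum_le_sum h3
  rw [← mul_sum] at h4
  have h5 := sum_geometric_two_le k
  have h6 : (((range (rr k ^ 6)).filter (fun m => ∃ j, j ≠ k ∧ col ω j (x m) m)).card : ℝ) ≤
      ∑ j ∈ range k, (((range (rr k ^ 6)).filter (fun m => col ω j (x m) m)).card : ℝ) := by
    exact_mod_cast h2
  have h7 : (0 : ℝ) ≤ (rr k ^ 6 : ℕ) := Nat.cast_nonneg _
  nlinarith

end Pool.Agent.H.MP_f59e5e_pr
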