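import Mathlib

namespace Pool.Agent.H.MP_f59e5e_pr

variable {I J : Type}

/-- the state reached from z after the listed action pairs -/
def state (q : I → J → ℤ × ℤ) (z : ℤ × ℤ) (h : List (I × J)) : ℤ × ℤ :=
  z + (h.map fun a => q a.1 a.2).sum

/-- the first m action pairs (latest first) when the players use strategies σ and τ -/
def play (σ : List (I × J) → I) (τ : List (I × J) → I → J) : ℕ → List (I × J)
  | 0 => []
  | m + 1 => (σ (play σ τ m), τ (play σ τ m) (σ (play σ τ m))) :: play σ τ m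

/-- the n-stage average payoff of Player 1 from initial state z -/
noncomputable def payoff (g : ℤ × ℤ → I → J → ℝ) (q : I → J → ℤ × ℤ) (z : ℤ × ℤ) (n : ℕ)
    (σ : List (I × J) → I) (τ : List (I × J) → I → J) : ℝ :=
  (∑ m ∈ Finset.range n, g (state q z (play σ τ m)) (σ (play σ τ m))
    (τ (play σ τ m) (σ (play σ τ m)))) / n

/-- the max-min value of the n-stage game -/
noncomputable def value (g : ℤ × ℤ → I → J → ℝ) (q : I → J → ℤ × ℤ) (z : ℤ × ℤ) (n : ℕ) : ℝ :=
  ⨆ σ, ⨅ τ, payoff g q z n σ τ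

end Pool.Agent.H.MP_f59e5e_pr
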