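import Pool.Agent.H.MP_f59e5e_pr.B
import Pool.Agent.H.MP_f59e5e_pr.D

namespace Pool.Agent.H.MP_f59e5e_pr
open Finset MeasureTheory Filter

def emb (z : ℤ × ℤ) : Om := fun j => ((z.1 * (rr j ^ 6 : ℕ) + z.2 : ℤ) : ZMod (MM j))
def tau (z : ℤ × ℤ) (ω : Om) : Om := emb z + ω
def clr (b : ℕ) (ω : Om) : Prop := ∃ j, j % 2 = b ∧ MM j ≤ (ω j).val + 2 * rr j ^ 6
open Classical in
noncomputable def g0 (ω : Om) (i j : Bool) : ℝ :=
  if i then (if j then 0 else if clr 1 ω then 0 else 1) else if clr 0 ω then 1 else 0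
noncomputable def gg (ω : Om) (z : ℤ × ℤ) (i j : Bool) : ℝ := g0 (tau z ω) i j
def qq (i j : Bool) : ℤ × ℤ := (if i && j then 1 else 0, 1)

theorem tau_add (z z' : ℤ × ℤ) : tau (z + z') = tau z ∘ tau z' := by
  ext ω j
  simp only [tau, emb, Function.comp, Pi.add_apply, Prod.fst_add, Prod.snd_add]
  push_cast
  ring

theorem tau_mp (z : ℤ × ℤ) : MeasurePreserving (tau z) PP PP := measurePreserving_add_left PP _

theorem tau_erg (F : Set Om) (hF : MeasurableSet F) (h : ∀ z, tau z '' F = F) :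
    PP F = 0 ∨ PP F = 1 := by
  have e : tau (0, 1) = fun x : Om => 1 + x := by
    ext ω j; simp [tau, emb]
  refine erg.toPreErgodic.prob_eq_zero_or_one hF ?_
  have := h (0, 1)
  rw [e] at this
  conv_lhs => rw [← this]
  exact Set.preimage_image_eq _ (add_right_injective 1)

theorem meas_clr (b : ℕ) : MeasurableSet {ω | clr b ω} := by
  have : {ω | clr b ω} = ⋃ j, {ω : Om | ω j ∈ {a : ZMod (MM j) | j % 2 = b ∧
      MM j ≤ a.val + 2 * rr j ^ 6}} := by
    ext ω; simp [clr]
  rw [this]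
  exact MeasurableSet.iUnion (fun j => meas_cyl j _)

theorem gg_meas (z : ℤ × ℤ) (i j : Bool) : Measurable fun ω => gg ω z i j := by
  have : Measurable fun ω => g0 ω i j := by
    cases i <;> cases j <;> simp only [g0, Bool.false_eq_true, if_false, if_true]
    · exact Measurable.ite (meas_clr 0) measurable_const measurable_const
    · exact Measurable.ite (meas_clr 0) measurable_const measurable_const
    · exact Measurable.ite (meas_clr 1) measurable_const measurable_const
    · exact measurable_const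
  exact this.comp (tau_mp z).measurable

theorem gg_bd (ω : Om) (z : ℤ × ℤ) (i j : Bool) : 0 ≤ gg ω z i j ∧ gg ω z i j ≤ 1 := by
  unfold gg g0
  split_ifs <;> norm_num

theorem gg_stat (ω : Om) (z z' : ℤ × ℤ) (i j : Bool) :
    gg (tau z ω) z' i j = gg ω (z + z') i j := by
  unfold gg
  rw [add_comm z, tau_add]; rfl

def xx : List (Bool × Bool) → ℕ
  | [] => 0
  | a :: h => xx h + if a.1 && a.2 then 1 else 0

theorem state_eq (h : List (Bool × Bool)) : state qq 0 h = ((xx h : ℤ), (h.length : ℤ)) := by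
  induction h with
  | nil => rfl
  | cons a h ih =>
    simp only [state, zero_add, List.map_cons, List.sum_cons] at ih ⊢
    rw [ih]
    simp only [qq, xx, Prod.mk_add_mk, List.length_cons]
    split_ifs <;> push_cast <;> congr 1 <;> ring

theorem play_len {I J : Type} (σ : List (I × J) → I) (τ : List (I × J) → I → J) (m : ℕ) :
    (play σ τ m).length = m := by
  induction m with
  | zero => rfl
  | succ m ih => simp [play, ih]

theorem clr_iff (b : ℕ) (ω : Om) (x m : ℕ) :
    clr b (tau ((x : ℤ), (m : ℤ)) ω) ↔ ∃ j, j % 2 = b ∧ col ω j x m := by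
  refine exists_congr (fun j => and_congr_right (fun _ => ?_))
  have : tau ((x : ℤ), (m : ℤ)) ω j = ((x * rr j ^ 6 + m : ℕ) : ZMod (MM j)) + ω j := by
    simp [tau, emb]
  rw [this, col]

theorem pay_bd (ω : Om) (n : ℕ) (σ τ) :
    0 ≤ payoff (gg ω) qq 0 n σ τ ∧ payoff (gg ω) qq 0 n σ τ ≤ 1 := by
  unfold payoff
  refine ⟨div_nonneg (sum_nonneg fun _ _ => (gg_bd _ _ _ _).1) (Nat.cast_nonneg _),
    div_le_one_of_le₀ ?_ (Nat.cast_nonneg _)⟩
  exact (sum_le_sum fun _ _ => (gg_bd _ _ _ _).2).trans (by simp)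

theorem xx_step (σ τ) (m : ℕ) : xx (play σ τ (m + 1)) = xx (play σ τ m) +
    if σ (play σ τ m) && τ (play σ τ m) (σ (play σ τ m)) then 1 else 0 := rfl

theorem xx_path (σ τ) (X : ℕ) (h : ∀ m, σ (play σ τ m) = true →
    τ (play σ τ m) (σ (play σ τ m)) = true → xx (play σ τ m) < X) :
    (∀ m, xx (play σ τ (m + 1)) = xx (play σ τ m) ∨
      xx (play σ τ (m + 1)) = xx (play σ τ m) + 1) ∧ ∀ m, xx (play σ τ m) ≤ X := by
  refine ⟨fun m => by rw [xx_step]; split_ifs <;> simp, fun m => ?_⟩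
  induction m with
  | zero => exact Nat.zero_le _
  | succ m ih =>
    rw [xx_step]
    split_ifs with e
    · have := Bool.and_eq_true_iff.1 e
      exact h m this.1 this.2
    · exact ih

theorem npos (k : ℕ) : (0 : ℝ) < (rr k ^ 6 : ℕ) := by
  have := rr16 k
  exact_mod_cast Nat.pow_pos (by omega)

open Classical in
theorem odd_val {ω : Om} (h : Good ω) {k : ℕ} (hk : k % 2 = 1) :
    value (gg ω) qq 0 (rr k ^ 6) ≤ 1 / 16 := by
  obtain ⟨X, h1, h2⟩ := target h k
  refine ciSup_le (fun σ => ?_)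
  set τ : List (Bool × Bool) → Bool → Bool := fun l _ => decide (xx l < X) with hτ
  refine (ciInf_le ⟨0, by rintro _ ⟨τ, rfl⟩; exact (pay_bd _ _ _ _).1⟩ τ).trans ?_
  obtain ⟨p1, p2⟩ := xx_path σ τ X (fun m _ e => by simpa [hτ] using e)
  have c := count h k (fun m => xx (play σ τ m)) p1 (fun m => (p2 m).trans h1)
  rw [payoff, div_le_iff₀ (npos k)]
  rw [card_filter] at c
  push_cast at c ⊢
  refine le_trans (b := ∑ x ∈ range (rr k ^ 6),
    if ∃ j, j ≠ k ∧ col ω j (xx (play σ τ x)) x then (1 : ℝ) else 0)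
    (sum_le_sum (fun m hm => ?_)) (by linarith)
  rw [state_eq, play_len, gg, g0, clr_iff, clr_iff]
  have := p2 m
  have a := h2 m (mem_range.1 hm)
  by_cases e1 : σ (play σ τ m) = true
  · rw [if_pos e1]
    by_cases e2 : xx (play σ τ m) < X
    · rw [if_pos (by simpa [hτ] using e2)]; positivity
    · rw [if_neg (by simpa [hτ] using e2), if_pos ⟨k, hk, by
        rwa [(by omega : xx (play σ τ m) = X)]⟩]
      positivity
  · rw [if_neg e1]
    split_ifs with e2 e3
    · rfl
    · obtain ⟨j, a, b⟩ := e2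
      exact (e3 ⟨j, by omega, b⟩).elim
    · norm_num
    · rfl

open Classical in
theorem even_val {ω : Om} (h : Good ω) {k : ℕ} (hk : k % 2 = 0) :
    7 / 8 ≤ value (gg ω) qq 0 (rr k ^ 6) := by
  obtain ⟨X, h1, h2⟩ := target h k
  set σ : List (Bool × Bool) → Bool := fun l => decide (xx l < X) with hσ
  refine le_trans (le_ciInf (fun τ => ?_)) (le_ciSup (f := fun σ => ⨅ τ,
    payoff (gg ω) qq 0 (rr k ^ 6) σ τ) ⟨1, ?_⟩ σ)
  swap
  · rintro _ ⟨σ, rfl⟩
    exact (ciInf_le ⟨0, by rintro _ ⟨τ, rfl⟩; exact (pay_bd _ _ _ _).1⟩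
      (fun _ _ => true)).trans (pay_bd _ _ _ _).2
  obtain ⟨p1, p2⟩ := xx_path σ τ X (fun m e _ => by simpa [hσ] using e)
  have c := count h k (fun m => xx (play σ τ m)) p1 (fun m => (p2 m).trans h1)
  rw [payoff, le_div_iff₀ (npos k)]
  rw [card_filter] at c
  have t := sum_range_sub (fun m => (xx (play σ τ m) : ℝ)) (rr k ^ 6)
  have t0 : xx (play σ τ 0) = 0 := rfl
  have t1 : (xx (play σ τ (rr k ^ 6)) : ℝ) * 16 ≤ (rr k ^ 6 : ℕ) := by
    have a := (p2 (rr k ^ 6)).trans h1
    have b : 16 ≤ rr k ^ 4 := (rr16 k).trans (Nat.le_self_pow (by norm_num) _)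
    have : xx (play σ τ (rr k ^ 6)) * 16 ≤ rr k ^ 6 :=
      (Nat.mul_le_mul a b).trans (le_of_eq (by ring))
    exact_mod_cast this
  rw [t0] at t
  rw [Nat.cast_sum] at c
  refine le_trans (b := ∑ m ∈ range (rr k ^ 6), (1 - ((xx (play σ τ (m + 1)) : ℝ) -
    xx (play σ τ m)) - ((if ∃ j, j ≠ k ∧ col ω j (xx (play σ τ m)) m then 1 else 0 : ℕ) : ℝ)))
    ?_ (sum_le_sum (fun m hm => ?_))
  · rw [sum_sub_distrib, sum_sub_distrib, t, sum_const, card_range, nsmul_eq_mul]
    simp only [Nat.cast_zero] at *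
    linarith
  rw [state_eq, play_len, gg, g0, clr_iff, clr_iff, xx_step]
  have := p2 m
  have a := h2 m (mem_range.1 hm)
  by_cases e2 : xx (play σ τ m) < X
  · have e1 : σ (play σ τ m) = true := by simpa [hσ] using e2
    rw [e1]
    cases τ (play σ τ m) true
    · simp only [Bool.and_false, Bool.false_eq_true, if_false, if_true]
      by_cases e4 : ∃ j, j % 2 = 1 ∧ col ω j (xx (play σ τ m)) m
      · obtain ⟨j, a, b⟩ := e4
        rw [if_pos ⟨j, by omega, b⟩, if_pos ⟨j, a, b⟩]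
        simp
      · rw [if_neg e4]
        split_ifs <;> simp
    · simp only [Bool.and_true, if_true]
      split_ifs <;> simp
  · have e1 : σ (play σ τ m) = false := by simpa [hσ] using e2
    rw [e1]
    simp only [Bool.false_and, Bool.false_eq_true, if_false]
    rw [if_pos (⟨k, hk, by rwa [(by omega : xx (play σ τ m) = X)]⟩ :
      ∃ j, j % 2 = 0 ∧ col ω j (xx (play σ τ m)) m)]
    split_ifs <;> simp

theorem no_lim {ω : Om} (h : Good ω) :
    ¬ ∃ l, Tendsto (fun n => value (gg ω) qq 0 n) atTop (nhds l) := by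
  rintro ⟨l, hl⟩
  have t : Tendsto (fun k => rr k ^ 6) atTop atTop := tendsto_atTop_mono (fun k => by
    have a := rr_ge k
    have b : k < 2 ^ k := Nat.lt_two_pow_self
    have c : rr k ≤ rr k ^ 6 := Nat.le_self_pow (by norm_num) _
    show k ≤ _
    omega) tendsto_id
  have t0 : Tendsto (fun k : ℕ => 2 * k) atTop atTop :=
    tendsto_atTop_mono (fun k => by show k ≤ _; omega) tendsto_id
  have t1 : Tendsto (fun k : ℕ => 2 * k + 1) atTop atTop :=
    tendsto_atTop_mono (fun k => by show k ≤ _; omega) tendsto_id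
  have a := ge_of_tendsto' (hl.comp (t.comp t0)) (fun k => even_val h (by show 2 * k % 2 = 0; omega))
  have b := le_of_tendsto' (hl.comp (t.comp t1)) (fun k => odd_val h (by show (2 * k + 1) % 2 = 1; omega))
  linarith

end Pool.Agent.H.MP_f59e5e_pr
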